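import Mathlib
import Pool.Agent.Helper324.Main

open Matrix

namespace Pool.Agent.Results.MP_fda97a_al.CommutatorSpectrum

/-- Complete description of all maps `φ` on complex `n × n` matrices (no linearity, continuity,
injectivity or surjectivity assumed) with `σ([φ T, φ S]) = σ([T, S])` for all `T, S`. -/
theorem result (n : ℕ) (φ : Matrix (Fin n) (Fin n) ℂ → Matrix (Fin n) (Fin n) ℂ) :
    (∀ T S : Matrix (Fin n) (Fin n) ℂ,
      spectrum ℂ (φ T * φ S - φ S * φ T) = spectrum ℂ (T * S - S * T)) ↔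
    ∃ (A : (Matrix (Fin n) (Fin n) ℂ)ˣ) (ξ η : Matrix (Fin n) (Fin n) ℂ → ℂ),
      (∀ T, ξ T = 1 ∨ ξ T = -1) ∧
      (∀ T S : Matrix (Fin n) (Fin n) ℂ,
        (¬ ∃ r s : ℂ, (T - r • (1 : Matrix (Fin n) (Fin n) ℂ)) ^ 2 =
          s • (1 : Matrix (Fin n) (Fin n) ℂ)) →
        (¬ ∃ r s : ℂ, (S - r • (1 : Matrix (Fin n) (Fin n) ℂ)) ^ 2 =
          s • (1 : Matrix (Fin n) (Fin n) ℂ)) →
        ξ T = ξ S) ∧
      ((∀ T, φ T = ξ T • (A.val * T * (A⁻¹).val) + η T • (1 : Matrix (Fin n) (Fin n) ℂ)) ∨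
       (∀ T, φ T = (Complex.I * ξ T) • (A.val * Tᵀ * (A⁻¹).val) +
          η T • (1 : Matrix (Fin n) (Fin n) ℂ))) := by
  have hq : ∀ T : Matrix (Fin n) (Fin n) ℂ, Pool.Agent.Helper324.Quad T ↔
      ∃ r s : ℂ, (T - r • (1 : Matrix (Fin n) (Fin n) ℂ)) ^ 2 =
        s • (1 : Matrix (Fin n) (Fin n) ℂ) := by
    intro T
    simp only [Pool.Agent.Helper324.Quad, sq]
  constructor
  · intro h
    obtain ⟨A, ξ, η, h1, h2, h3⟩ := Pool.Agent.Helper324.form_of_pres (φ := φ) h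
    refine ⟨A, ξ, η, h1, ?_, h3⟩
    intro T S hT hS
    exact h2 T S (fun hc => hT ((hq T).mp hc)) (fun hc => hS ((hq S).mp hc))
  · rintro ⟨A, ξ, η, h1, h2, h3⟩
    apply Pool.Agent.Helper324.pres_of_form
    refine ⟨A, ξ, η, h1, ?_, h3⟩
    intro T S hT hS
    exact h2 T S (fun hc => hT ((hq T).mpr hc)) (fun hc => hS ((hq S).mpr hc))

end Pool.Agent.Results.MP_fda97a_al.CommutatorSpectrum
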